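import Pool.Agent.H838R3.AmMain

/-!
# Degree preserving amalgamation of real zero polynomials with two shared variables fails

The negated form of the question, with `d = 3` and `m = n = 1`. The pair is
`p = (1 - 2 x₂) (1 - x₁²) - 11 x₂² + 12 x₂³ + y (1 - x₁² - x₂²)` and
`q = (1 - 2 x₂) (1 - x₁²) - 11 x₂² + 12 x₂³ + z (1 - x₁² - 9 x₂²)`.
Both are real zero polynomials (they are determinants of symmetric pencils coming from two
inequivalent definite determinantal representations of the same plane cubic).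
-/

namespace Pool.Agent.Results.MP_eea824_ag.CubicCounterexample

open H838R3.Am

theorem result :
    ∃ p q : MvPolynomial (Fin 2 ⊕ Fin 1) ℝ,
      RealZero p ∧ RealZero q ∧ p.totalDegree ≤ 3 ∧ q.totalDegree ≤ 3 ∧ shared p = shared q ∧
      ¬ ∃ r : MvPolynomial (Fin 2 ⊕ (Fin 1 ⊕ Fin 1)) ℝ,
        RealZero r ∧ r.totalDegree ≤ 3 ∧ setZ r = p ∧ setY r = q :=
  ⟨P, Q, realZero_P, realZero_Q, td_P, td_Q, shared_P.trans shared_Q.symm,
    fun ⟨r, hr, hd, hp, hq⟩ => no_extension r hr hd hp hq⟩

end Pool.Agent.Results.MP_eea824_ag.CubicCounterexample
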